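import Pool.Agent.Helper438.Sc.P_RV_Qs
import Pool.Agent.Helper438.Sc.P_RV_retract
import Pool.Agent.Helper438.Sc.P_RV_succ_iff
import Pool.Agent.Helper438.Sc.P_borel_retract
import Pool.Agent.Helper438.Sc.P_frame_contractible
import Pool.Agent.Helper438.Sc.P_act_free

namespace Pool.Agent.Results.MP_196328_ag.OddVanishing

open Pool.Agent.Helper438.Sc

universe u

/-- every spanning sequence of `ℂ^n` contains a basis -/
theorem exists_minor (n : ℕ) (s : Frame (Fin n)) :
    ∃ f : Fin n → ℕ, (Matrix.of fun i j => s.1 (f j) i).det ≠ 0 := by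
  have h := s.2
  obtain ⟨κ, a, ha, hspan, hli⟩ := exists_linearIndependent' ℂ s.1
  have htop : ⊤ ≤ Submodule.span ℂ (Set.range (s.1 ∘ a)) := by
    rw [hspan, h]
  let b : Module.Basis κ ℂ (Fin n → ℂ) := Module.Basis.mk hli htop
  haveI : Fintype κ := FiniteDimensional.fintypeBasisIndex b
  have hcard : Fintype.card κ = Fintype.card (Fin n) := by
    rw [← Module.finrank_eq_card_basis b, Module.finrank_pi]
  let e : κ ≃ Fin n := Fintype.equivOfCardEq hcard
  refine ⟨fun j => a (e.symm j), ?_⟩
  have hli' : LinearIndependent ℂ (fun j : Fin n => s.1 (a (e.symm j))) :=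
    hli.comp e.symm e.symm.injective
  have hu : IsUnit (Matrix.of fun i j : Fin n => s.1 (a (e.symm j)) i) := by
    have := Matrix.linearIndependent_cols_iff_isUnit
      (A := (Matrix.of fun i j : Fin n => s.1 (a (e.symm j)) i))
    rw [← this]
    exact hli'
  rw [Matrix.isUnit_iff_isUnit_det] at hu
  exact hu.ne_zero

/-- The space `Frame (Fin n)` of spanning sequences is contractible, near every point it has a
non-vanishing minor (so it is locally trivial over its quotient by `GL_n`), `GL_n × GL_n` acts
freely on the total space, and for every field `k` the singular cohomology with coefficients in `k`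
of the Borel construction of the stack of torsion sheaves of length `n` on the projective line
vanishes in all odd degrees. -/
theorem result (n : ℕ) :
    ContractibleSpace (Frame (Fin n)) ∧
    (∀ s : Frame (Fin n), ∃ f : Fin n → ℕ, (Matrix.of fun i j => s.1 (f j) i).det ≠ 0) ∧
    (∀ (g h : GLi (Fin n)) (p : Tot (Fin n)), ActRel g h p p → g = 1 ∧ h = 1) ∧
    ∀ (k : Type u) [Field k] (i : ℕ), Odd i →
      Subsingleton (SingularCohomology k (Borel (Fin n)) i) := by
  refine ⟨frame_contractible (Fin n), exists_minor n, act_free (Fin n), ?_⟩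
  intro k _ i hi
  obtain ⟨m, rfl⟩ := hi
  rw [← RV_succ_iff]
  obtain ⟨s, r, H⟩ := borel_retract (Fin n)
  exact RV_retract k s r H (2 * m + 1) (RV_Qs k n (2 * m) ⟨m, by ring⟩)

end Pool.Agent.Results.MP_196328_ag.OddVanishing
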